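import Mathlib
import Pool.Agent.H99.Dig.Ext
import Pool.Agent.H99.Dig.Prob

/-!
# Hamiltonicity of randomly perturbed digraphs just below semidegree `n / 2`
-/

namespace Pool.Agent.Results.MP_ee1662_pr.Threshold

open Finset Filter Asymptotics

/-- A digraph on the vertex set `[n] = Fin n`: an adjacency relation without loops (so there is at
most one edge from `u` to `v` for each ordered pair of distinct vertices). -/
structure Dig (n : ℕ) where
  /-- `Adj u v` means that there is an edge from `u` to `v`. -/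
  Adj : Fin n → Fin n → Prop
  /-- there are no loops -/
  loopless : ∀ v, ¬ Adj v v

/-- The out-degree. -/
noncomputable def Dig.outDeg {n : ℕ} (D : Dig n) (v : Fin n) : ℕ := {u | D.Adj v u}.ncard

/-- The in-degree. -/
noncomputable def Dig.inDeg {n : ℕ} (D : Dig n) (v : Fin n) : ℕ := {u | D.Adj u v}.ncard

/-- `δ⁰(D) ≥ d`: every vertex has out-degree and in-degree at least `d`. -/
def Dig.MinSemidegreeGE {n : ℕ} (D : Dig n) (d : ℝ) : Prop :=
  ∀ v, d ≤ D.outDeg v ∧ d ≤ D.inDeg v

/-- A relation on `[n]` has a directed Hamilton cycle: a cyclic arrangement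
`f : ZMod n ≃ [n]` of all the vertices in which each vertex is joined to the next one. -/
def IsHamiltonian {n : ℕ} (adj : Fin n → Fin n → Prop) : Prop :=
  ∃ f : ZMod n ≃ Fin n, ∀ i, adj (f i) (f (i + 1))

/-- The `n (n - 1)` ordered pairs of distinct vertices. -/
def pairs (n : ℕ) : Finset (Fin n × Fin n) := (Finset.univ : Finset (Fin n)).offDiag

/-- The adjacency relation of `D ∪ E`, for a set `E` of ordered pairs. -/
def Dig.union {n : ℕ} (D : Dig n) (E : Finset (Fin n × Fin n)) : Fin n → Fin n → Prop :=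
  fun u v => D.Adj u v ∨ (u, v) ∈ E

open Classical in
/-- The probability that the edge set `E` of the binomial random digraph `D(n, p)` has the
property `Q`: the sum, over all the sets `E` of ordered pairs of distinct vertices with the
property `Q`, of `p ^ |E| (1 - p) ^ (n (n - 1) - |E|)`. -/
noncomputable def prob (n : ℕ) (p : ℝ) (Q : Finset (Fin n × Fin n) → Prop) : ℝ :=
  ∑ E ∈ (pairs n).powerset.filter Q, p ^ E.card * (1 - p) ^ ((pairs n).card - E.card)

/-- Condition (i) in the definition of a `d`-threshold for Hamiltonicity: for every `p = ω(p̂)` and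
all digraphs `D_n` on `[n]` with `δ⁰(D_n) ≥ d(n)`, a.a.s. `D_n ∪ D(n, p)` is Hamiltonian. -/
def ConditionI (d phat : ℕ → ℝ) : Prop :=
  ∀ p : ℕ → ℝ, (∀ n, 0 ≤ p n ∧ p n ≤ 1) → phat =o[atTop] p →
    ∀ D : (n : ℕ) → Dig n, (∀ n, (D n).MinSemidegreeGE (d n)) →
      Tendsto (fun n => prob n (p n) (fun E => IsHamiltonian ((D n).union E))) atTop (nhds 1)

/-- Condition (ii) in the definition of a `d`-threshold for Hamiltonicity: for every `p = o(p̂)`
there are digraphs `D_n` on `[n]` with `δ⁰(D_n) ≥ d(n)` such that a.a.s. `D_n ∪ D(n, p)` is not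
Hamiltonian. -/
def ConditionII (d phat : ℕ → ℝ) : Prop :=
  ∀ p : ℕ → ℝ, (∀ n, 0 ≤ p n ∧ p n ≤ 1) → p =o[atTop] phat →
    ∃ D : (n : ℕ) → Dig n, (∀ n, (D n).MinSemidegreeGE (d n)) ∧
      Tendsto (fun n => prob n (p n) (fun E => ¬ IsHamiltonian ((D n).union E))) atTop (nhds 1)

/-- `p̂` is a `d`-threshold for Hamiltonicity of randomly perturbed digraphs. -/
def IsThreshold (d phat : ℕ → ℝ) : Prop := ConditionI d phat ∧ ConditionII d phat

open Pool.Agent.H99.Dig

/-! ### Translation to lists -/

theorem isHamiltonian_of_HC {n : ℕ} {adj : Fin n → Fin n → Prop}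
    (h : HC (Finset.univ : Finset (Fin n)) adj) : IsHamiltonian adj := by
  obtain ⟨l, x, y, hP, hyx⟩ := h
  have hlen := hP.length_eq
  have hpos := hP.length_pos
  rw [Fintype.card_fin] at hlen
  have hn : n ≠ 0 := by omega
  have : NeZero n := ⟨hn⟩
  let f : ZMod n → Fin n := fun z => l[z.val]'(by rw [hlen]; exact ZMod.val_lt z)
  have hinj : Function.Injective f := by
    intro a b hab
    have := hP.1.getElem_inj_iff.mp hab
    exact ZMod.val_injective n this
  have hbij : Function.Bijective f := by
    rw [Fintype.bijective_iff_injective_and_card]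
    refine ⟨hinj, ?_⟩
    rw [ZMod.card, Fintype.card_fin]
  refine ⟨Equiv.ofBijective f hbij, ?_⟩
  intro z
  rw [Equiv.ofBijective_apply, Equiv.ofBijective_apply]
  have hzlt := ZMod.val_lt z
  have hz1 : z + 1 = ((z.val + 1 : ℕ) : ZMod n) := by
    push_cast; rw [ZMod.natCast_zmod_val]
  by_cases hz : z.val + 1 < n
  · have hv : (z + 1).val = z.val + 1 := by
      rw [hz1, ZMod.val_natCast_of_lt hz]
    have h1 := hP.2.2.1
    rw [List.isChain_iff_getElem] at h1
    have h2 := h1 z.val (by omega)
    simp only [f, hv]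
    exact h2
  · have hz' : z.val = l.length - 1 := by omega
    have hv : (z + 1).val = 0 := by
      rw [hz1]
      have e : z.val + 1 = n := by omega
      rw [e, ZMod.natCast_self, ZMod.val_zero]
    simp only [f, hv, hz']
    rw [hP.first hpos, hP.last (by omega)]
    exact hyx

theorem HC_of_isHamiltonian {n : ℕ} {adj : Fin n → Fin n → Prop} (hn : n ≠ 0)
    (h : IsHamiltonian adj) : HC (Finset.univ : Finset (Fin n)) adj := by
  obtain ⟨f, hf⟩ := h
  have : NeZero n := ⟨hn⟩
  let l : List (Fin n) := (List.range n).map (fun i : ℕ => f (i : ZMod n))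
  have hlen : l.length = n := by simp [l]
  have hget : ∀ (i : ℕ) (hi : i < l.length), l[i] = f (i : ZMod n) := by
    intro i hi; simp [l]
  have hchain : l.IsChain adj := by
    rw [List.isChain_iff_getElem]
    intro i hi
    rw [hget, hget]
    have := hf (i : ZMod n)
    push_cast
    exact this
  have hP := pth_of_chain hchain (by omega)
  refine ⟨l, _, _, ⟨?_, ?_, hP⟩, ?_⟩
  · apply List.Nodup.map_on _ List.nodup_range
    intro a ha b hb hab
    rw [List.mem_range] at ha hb
    have h1 := f.injective hab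
    rw [ZMod.natCast_eq_natCast_iff'] at h1
    rw [Nat.mod_eq_of_lt ha, Nat.mod_eq_of_lt hb] at h1
    exact h1
  · intro v
    simp only [Finset.mem_univ, iff_true]
    rw [List.mem_map]
    refine ⟨(f.symm v).val, ?_, ?_⟩
    · rw [List.mem_range]; exact ZMod.val_lt _
    · rw [ZMod.natCast_zmod_val, Equiv.apply_symm_apply]
  · rw [hget, hget]
    have := hf ((l.length - 1 : ℕ) : ZMod n)
    have e : (((l.length - 1 : ℕ) : ZMod n)) + 1 = ((0 : ℕ) : ZMod n) := by
      have : (((l.length - 1 : ℕ) : ZMod n)) + 1 = ((l.length - 1 + 1 : ℕ) : ZMod n) := by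
        push_cast; ring
      rw [this]
      have e2 : l.length - 1 + 1 = n := by omega
      rw [e2, ZMod.natCast_self]; simp
    rw [e] at this
    exact this

open Classical in
theorem outDeg_eq {n : ℕ} (D : Dig n) (v : Fin n) :
    D.outDeg v = (Finset.univ.filter (fun u => D.Adj v u)).card := by
  unfold Dig.outDeg
  rw [Set.ncard_eq_toFinset_card', Set.toFinset_ofPred]

open Classical in
theorem inDeg_eq {n : ℕ} (D : Dig n) (v : Fin n) :
    D.inDeg v = (Finset.univ.filter (fun u => D.Adj u v)).card := by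
  unfold Dig.inDeg
  rw [Set.ncard_eq_toFinset_card', Set.toFinset_ofPred]

theorem union_irrefl {n : ℕ} (D : Dig n) {E : Finset (Fin n × Fin n)} (hE : E ⊆ pairs n) :
    ∀ v, ¬ D.union E v v := by
  intro v h
  rcases h with h | h
  · exact D.loopless v h
  · have := hE h
    rw [pairs, Finset.mem_offDiag] at this
    exact this.2.2 rfl

theorem union_mono {n : ℕ} (D : Dig n) {E E' : Finset (Fin n × Fin n)} (h : E ⊆ E') :
    ∀ a b, D.union E a b → D.union E' a b := by
  intro a b hab
  rcases hab with hab | hab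
  · exact Or.inl hab
  · exact Or.inr (h hab)

open Classical in
theorem prob_eq_Ex (n : ℕ) (p : ℝ) (Q : Finset (Fin n × Fin n) → Prop) :
    prob n p Q = Ex (pairs n) p (fun E => if Q E then 1 else 0) := by
  unfold prob Ex
  rw [Finset.sum_filter]
  apply Finset.sum_congr rfl
  intro E _
  by_cases h : Q E
  · simp [h]
  · simp [h]

theorem prob_eq_zero {n : ℕ} {p : ℝ} {Q : Finset (Fin n × Fin n) → Prop}
    (h : ∀ E, ¬ Q E) : prob n p Q = 0 := by
  classical
  rw [prob_eq_Ex]
  simp only [h, if_false]
  exact Ex_const _ _ _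

theorem prob_not (n : ℕ) (p : ℝ) (Q : Finset (Fin n × Fin n) → Prop) :
    prob n p (fun E => ¬ Q E) = 1 - prob n p Q := by
  classical
  rw [prob_eq_Ex, prob_eq_Ex]
  have h : (fun E : Finset (Fin n × Fin n) => if ¬ Q E then (1 : ℝ) else 0) =
      fun E => 1 + (-1) * (if Q E then (1 : ℝ) else 0) := by
    funext E; split_ifs <;> simp_all
  have h2 : Ex (pairs n) p (fun E => if ¬ Q E then (1 : ℝ) else 0) =
      Ex (pairs n) p (fun _ => 1) + (-1) * Ex (pairs n) p (fun E => if Q E then (1 : ℝ) else 0) := by
    rw [h, Ex_add, Ex_smul]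
  rw [Ex_const] at h2
  convert h2 using 1
  · congr 1
    funext E
    congr
  · ring

theorem prob_nonneg {n : ℕ} {p : ℝ} (h0 : 0 ≤ p) (h1 : p ≤ 1)
    (Q : Finset (Fin n × Fin n) → Prop) : 0 ≤ prob n p Q := by
  classical
  unfold prob
  apply Finset.sum_nonneg
  intro E _
  have : 0 ≤ 1 - p := by linarith
  positivity

theorem prob_le_one {n : ℕ} {p : ℝ} (h0 : 0 ≤ p) (h1 : p ≤ 1)
    (Q : Finset (Fin n × Fin n) → Prop) : prob n p Q ≤ 1 := by
  have := prob_not n p Q
  have := prob_nonneg h0 h1 (fun E => ¬ Q E)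
  linarith

/-! ### Condition (i) -/

/-- the potential function -/
noncomputable def phi {n : ℕ} (D : Dig n) (E : Finset (Fin n × Fin n)) : ℝ :=
  if hnum (D.union E) = 0 then 0 else 2 ^ hnum (D.union E)

theorem phi_nonneg {n : ℕ} (D : Dig n) (E : Finset (Fin n × Fin n)) : 0 ≤ phi D E := by
  unfold phi; split_ifs
  · exact le_rfl
  · positivity

theorem phi_le_of_hnum_le {n : ℕ} (D : Dig n) {E E' : Finset (Fin n × Fin n)}
    (h : hnum (D.union E') ≤ hnum (D.union E)) : phi D E' ≤ phi D E := by
  unfold phi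
  by_cases h0 : hnum (D.union E') = 0
  · rw [if_pos h0]
    split_ifs
    · exact le_rfl
    · positivity
  · rw [if_neg h0, if_neg (by omega)]
    exact pow_le_pow_right₀ (by norm_num) h

theorem phi_le_half {n : ℕ} (D : Dig n) {E E' : Finset (Fin n × Fin n)}
    (h : hnum (D.union E') < hnum (D.union E)) : phi D E' ≤ phi D E / 2 := by
  unfold phi
  rw [if_neg (show ¬ hnum (D.union E) = 0 by omega)]
  by_cases h0 : hnum (D.union E') = 0
  · rw [if_pos h0]; positivity
  · rw [if_neg h0]
    have h1 : (2 : ℝ) ^ (hnum (D.union E') + 1) ≤ 2 ^ (hnum (D.union E)) :=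
      pow_le_pow_right₀ (by norm_num) h
    rw [pow_succ] at h1
    linarith

open Classical in
theorem upper {n w t N : ℕ} (D : Dig n) {p : ℝ} (hp0 : 0 ≤ p) (hp1 : p ≤ 1) (hw : 1 ≤ w)
    (hn : 400 * w ≤ n) (hout : ∀ v, n ≤ 2 * D.outDeg v + 2 * w)
    (hin : ∀ v, n ≤ 2 * D.inDeg v + 2 * w)
    (hout' : ∀ v, n ≤ 2 * D.outDeg v + t)
    (hin' : ∀ v, n ≤ 2 * D.inDeg v + t)
    (hN : (N : ℝ) ≤ p * ((w * w : ℕ) : ℝ)) :
    1 - (3/4) ^ N * 2 ^ t ≤ prob n p (fun E => IsHamiltonian (D.union E)) := by
  have h2 : 2 ≤ Fintype.card (Fin n) := by rw [Fintype.card_fin]; omega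
  have key := Ex_le_of_boosters (S := pairs n) hp0 hp1 (φ := phi D)
    (by
      intro E E' hEE' hE'
      apply phi_le_of_hnum_le
      exact hnum_mono (union_irrefl D (hEE'.trans hE')) h2 (union_mono D hEE'))
    (fun E _ => phi_nonneg D E) (m := w * w)
    (by
      intro E hE hne
      have hpos : 0 < hnum (D.union E) := by
        by_contra hcon
        apply hne
        unfold phi
        rw [if_pos (by omega)]
      have hb := hnum_boosters (R := D.union E) hw (by rw [Fintype.card_fin]; exact hn)
        (union_irrefl D hE)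
        (by
          intro v
          have h1 := hout v
          rw [outDeg_eq] at h1
          have h3 : (Finset.univ.filter (fun u => D.Adj v u)).card ≤
              (Finset.univ.filter (fun u => D.union E v u)).card := by
            apply Finset.card_le_card
            intro u hu
            rw [Finset.mem_filter] at hu ⊢
            exact ⟨hu.1, Or.inl hu.2⟩
          rw [Fintype.card_fin]
          omega)
        (by
          intro v
          have h1 := hin v
          rw [inDeg_eq] at h1
          have h3 : (Finset.univ.filter (fun u => D.Adj u v)).card ≤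
              (Finset.univ.filter (fun u => D.union E u v)).card := by
            apply Finset.card_le_card
            intro u hu
            rw [Finset.mem_filter] at hu ⊢
            exact ⟨hu.1, Or.inl hu.2⟩
          rw [Fintype.card_fin]
          omega) hpos
      refine ⟨_, ?_, hb, ?_⟩
      · intro e he
        rw [Finset.mem_filter] at he
        rw [pairs, Finset.mem_offDiag]
        exact ⟨Finset.mem_univ _, Finset.mem_univ _, he.2.1⟩
      · intro e he
        rw [Finset.mem_filter] at he
        apply phi_le_half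
        refine lt_of_le_of_lt (le_of_eq ?_) he.2.2
        congr 1
        funext a b
        apply propext
        unfold Dig.union addE
        rw [Finset.mem_insert, Prod.ext_iff]
        tauto) N hN
  have h1 : prob n p (fun E => ¬ IsHamiltonian (D.union E)) ≤ Ex (pairs n) p (phi D) := by
    rw [prob_eq_Ex]
    apply Ex_mono hp0 hp1
    intro E hE
    by_cases hH : IsHamiltonian (D.union E)
    · simp only [hH, not_true_eq_false, if_false]; exact phi_nonneg D E
    · simp only [hH, not_false_eq_true, if_true]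
      have hne : hnum (D.union E) ≠ 0 := by
        intro h0
        exact hH (isHamiltonian_of_HC (HC_of_hnum_eq_zero (union_irrefl D hE) h2 h0))
      unfold phi
      rw [if_neg hne]
      exact one_le_pow₀ (by norm_num)
  have h3 : phi D ∅ ≤ 2 ^ t := by
    have hle : hnum (D.union ∅) ≤ t := by
      apply hnum_le
      apply ext_HC (union_irrefl D (Finset.empty_subset _)) (by omega)
      · intro v
        have h1 := hout' v
        rw [outDeg_eq] at h1
        have h3 : (Finset.univ.filter (fun u => D.Adj v u)).card ≤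
            (Finset.univ.filter (fun u => D.union ∅ v u)).card := by
          apply Finset.card_le_card
          intro u hu
          rw [Finset.mem_filter] at hu ⊢
          exact ⟨hu.1, Or.inl hu.2⟩
        rw [Fintype.card_fin]
        omega
      · intro v
        have h1 := hin' v
        rw [inDeg_eq] at h1
        have h3 : (Finset.univ.filter (fun u => D.Adj u v)).card ≤
            (Finset.univ.filter (fun u => D.union ∅ u v)).card := by
          apply Finset.card_le_card
          intro u hu
          rw [Finset.mem_filter] at hu ⊢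
          exact ⟨hu.1, Or.inl hu.2⟩
        rw [Fintype.card_fin]
        omega
    unfold phi
    split_ifs
    · positivity
    · exact pow_le_pow_right₀ (by norm_num) hle
  rw [prob_not] at h1
  have h4 : (3/4 : ℝ) ^ N * phi D ∅ ≤ (3/4) ^ N * 2 ^ t :=
    mul_le_mul_of_nonneg_left h3 (by positivity)
  linarith

theorem conditionI (η : ℕ → ℝ) (hη : ∀ n, 1 / 2 ≤ η n)
    (hη' : η =o[atTop] (fun n : ℕ => (n : ℝ))) :
    ConditionI (fun n => (n : ℝ) / 2 - η n) (fun n => η n / (n : ℝ) ^ 2) := by
  intro p hp hpo D hD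
  rw [tendsto_order]
  refine ⟨?_, ?_⟩
  swap
  · intro a ha
    filter_upwards with n
    exact lt_of_le_of_lt (prob_le_one (hp n).1 (hp n).2 _) ha
  intro a ha
  -- choose `k` with `(3/4)^k < 1 - a`
  obtain ⟨k, hk⟩ := exists_pow_lt_of_lt_one (show (0 : ℝ) < 1 - a by linarith)
    (show (3/4 : ℝ) < 1 by norm_num)
  have e1 : ∀ᶠ n : ℕ in atTop, η n ≤ (1/800) * (n : ℝ) := by
    have := hη'.bound (show (0 : ℝ) < 1/800 by norm_num)
    filter_upwards [this] with n hn
    rw [Real.norm_eq_abs, Real.norm_eq_abs, abs_of_nonneg (by linarith [hη n]),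
      abs_of_nonneg (by positivity)] at hn
    exact hn
  set K : ℝ := 640000 * (14 + 2 * k) with hK
  have hKpos : 0 < K := by positivity
  have e2 : ∀ᶠ n : ℕ in atTop, η n / (n : ℝ) ^ 2 ≤ K⁻¹ * p n := by
    have := hpo.bound (show (0 : ℝ) < K⁻¹ by positivity)
    filter_upwards [this] with n hn
    rw [Real.norm_eq_abs, Real.norm_eq_abs, abs_of_nonneg (by have := hη n; positivity),
      abs_of_nonneg (hp n).1] at hn
    exact hn
  filter_upwards [e1, e2, eventually_ge_atTop 800] with n h1 h2 h3
  have hn0 : (0 : ℝ) < n := by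
    have : 0 < n := by omega
    exact_mod_cast this
  set w := n / 400 with hw
  set t := ⌈2 * η n⌉₊ with ht
  set N := ⌊p n * ((w * w : ℕ) : ℝ)⌋₊ with hN
  have hηn := hη n
  have hwge : (n : ℝ) / 800 ≤ w := by
    have h4 : n ≤ 400 * w + 399 := by omega
    have h5 : (n : ℝ) ≤ 400 * w + 399 := by exact_mod_cast h4
    have h6 : (800 : ℝ) ≤ n := by exact_mod_cast h3
    linarith
  have hηw : η n ≤ w := by linarith
  have htle : (t : ℝ) ≤ 2 * η n + 1 := (Nat.ceil_lt_add_one (by linarith)).le
  have htge : 2 * η n ≤ t := Nat.le_ceil _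
  have hDn := hD n
  have hup := upper (n := n) (w := w) (t := t) (N := N) (D n) (hp n).1 (hp n).2 (by omega)
    (by omega)
    (by
      intro v
      have := (hDn v).1
      have h7 : (n : ℝ) ≤ 2 * ((D n).outDeg v : ℝ) + 2 * w := by linarith
      exact_mod_cast h7)
    (by
      intro v
      have := (hDn v).2
      have h7 : (n : ℝ) ≤ 2 * ((D n).inDeg v : ℝ) + 2 * w := by linarith
      exact_mod_cast h7)
    (by
      intro v
      have := (hDn v).1
      have h7 : (n : ℝ) ≤ 2 * ((D n).outDeg v : ℝ) + t := by linarith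
      exact_mod_cast h7)
    (by
      intro v
      have := (hDn v).2
      have h7 : (n : ℝ) ≤ 2 * ((D n).inDeg v : ℝ) + t := by linarith
      exact_mod_cast h7)
    (Nat.floor_le (by have := (hp n).1; positivity))
  -- `N ≥ 3 t + k`
  have hNge : 3 * t + k ≤ N := by
    apply Nat.le_floor
    push_cast
    have hpn := (hp n).1
    have h8 : η n * K ≤ p n * (n : ℝ) ^ 2 := by
      rw [div_le_iff₀ (by positivity)] at h2
      have h9 := mul_le_mul_of_nonneg_right h2 hKpos.le
      have e : K⁻¹ * p n * (n : ℝ) ^ 2 * K = p n * (n : ℝ) ^ 2 := by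
        field_simp
      rw [e] at h9
      exact h9
    have h9 : ((n : ℝ) / 800) * ((n : ℝ) / 800) ≤ (w : ℝ) * w :=
      mul_self_le_mul_self (by positivity) hwge
    have h10 : p n * (((n : ℝ) / 800) * ((n : ℝ) / 800)) ≤ p n * ((w : ℝ) * w) :=
      mul_le_mul_of_nonneg_left h9 hpn
    have h11 : p n * (((n : ℝ) / 800) * ((n : ℝ) / 800)) = p n * (n : ℝ) ^ 2 / 640000 := by ring
    have h12 : η n * (14 + 2 * k) ≤ p n * ((w : ℝ) * w) := by
      rw [h11] at h10
      have : η n * K / 640000 = η n * (14 + 2 * k) := by rw [hK]; ring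
      rw [← this]
      have := div_le_div_of_nonneg_right h8 (show (0 : ℝ) ≤ 640000 by norm_num)
      linarith
    have hk0 : (0 : ℝ) ≤ k := by positivity
    have h13 : (k : ℝ) ≤ 2 * k * η n := by nlinarith
    linarith
  have hpow : (3/4 : ℝ) ^ N * 2 ^ t ≤ (3/4) ^ k := by
    have h5 : (3/4 : ℝ) ^ N ≤ (3/4) ^ (3 * t + k) :=
      pow_le_pow_of_le_one (by norm_num) (by norm_num) hNge
    calc (3/4 : ℝ) ^ N * 2 ^ t ≤ (3/4) ^ (3 * t + k) * 2 ^ t :=
          mul_le_mul_of_nonneg_right h5 (by positivity)
      _ = (((3/4 : ℝ) ^ 3 * 2) ^ t) * (3/4) ^ k := by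
          rw [pow_add, pow_mul, mul_pow]; ring
      _ ≤ 1 * (3/4) ^ k := by
          apply mul_le_mul_of_nonneg_right _ (by positivity)
          apply pow_le_one₀ (by norm_num) (by norm_num)
      _ = (3/4) ^ k := one_mul _
  linarith

/-! ### Condition (ii) -/

theorem Ex_mem {n : ℕ} {p : ℝ} {e : Fin n × Fin n} (he : e ∈ pairs n) :
    Ex (pairs n) p (fun E => if e ∈ E then (1 : ℝ) else 0) = p := by
  have h1 := Ex_disjoint (S := pairs n) (B := {e}) (by simpa using he) p
  have h2 : Ex (pairs n) p (fun E => if e ∈ E then (1 : ℝ) else 0) =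
      Ex (pairs n) p (fun E => 1 + (-1) * (if Disjoint E {e} then (1 : ℝ) else 0)) := by
    congr 1
    funext E
    by_cases h : e ∈ E
    · have : ¬ Disjoint E {e} := by rw [Finset.disjoint_singleton_right]; simpa using h
      simp [h]
    · have : Disjoint E {e} := by rw [Finset.disjoint_singleton_right]; exact h
      simp [h]
  rw [h2, Ex_add, Ex_const, Ex_smul, h1, Finset.card_singleton]
  ring

theorem Ex_card {n : ℕ} {p : ℝ} {T : Finset (Fin n × Fin n)} (hT : T ⊆ pairs n) :
    Ex (pairs n) p (fun E => ((E ∩ T).card : ℝ)) = p * T.card := by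
  have h1 : (fun E : Finset (Fin n × Fin n) => ((E ∩ T).card : ℝ)) =
      fun E => ∑ e ∈ T, (if e ∈ E then (1 : ℝ) else 0) := by
    funext E
    rw [Finset.sum_boole, Finset.inter_comm]
    congr 2
  rw [h1]
  have h2 : Ex (pairs n) p (fun E => ∑ e ∈ T, (if e ∈ E then (1 : ℝ) else 0)) =
      ∑ e ∈ T, Ex (pairs n) p (fun E => if e ∈ E then (1 : ℝ) else 0) := by
    unfold Ex
    rw [Finset.sum_comm]
    apply Finset.sum_congr rfl
    intro E _
    rw [Finset.mul_sum]
  rw [h2, Finset.sum_congr rfl (fun e he => Ex_mem (hT he)), Finset.sum_const, nsmul_eq_mul]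
  ring

/-- the complete bipartite digraph with parts `{0, …, a-1}` and `{a, …, n-1}` -/
def bip (n a : ℕ) : Dig n where
  Adj u v := (u.val < a ∧ a ≤ v.val) ∨ (a ≤ u.val ∧ v.val < a)
  loopless := by intro v h; omega

theorem bip_adj {n a : ℕ} {u v : Fin n} : (bip n a).Adj u v ↔
    (u.val < a ∧ a ≤ v.val) ∨ (a ≤ u.val ∧ v.val < a) := Iff.rfl

theorem card_lt {n a : ℕ} (ha : a ≤ n) :
    ((Finset.univ : Finset (Fin n)).filter (fun v => v.val < a)).card = a := by
  rw [Fin.card_filter_val_lt]; omega

theorem card_ge {n a : ℕ} (ha : a ≤ n) :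
    ((Finset.univ : Finset (Fin n)).filter (fun v => a ≤ v.val)).card = n - a := by
  have h1 := Finset.card_filter_add_card_filter_not (s := (Finset.univ : Finset (Fin n)))
    (fun v => v.val < a)
  rw [card_lt ha, Finset.card_univ, Fintype.card_fin] at h1
  have h2 : ((Finset.univ : Finset (Fin n)).filter (fun v => ¬ v.val < a)) =
      ((Finset.univ : Finset (Fin n)).filter (fun v => a ≤ v.val)) := by
    ext v; simp
  rw [h2] at h1
  omega

theorem bip_outDeg {n a : ℕ} (ha : a ≤ n) (v : Fin n) :
    (bip n a).outDeg v = if v.val < a then n - a else a := by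
  classical
  rw [outDeg_eq]
  split_ifs with h
  · refine Eq.trans ?_ (card_ge ha)
    congr 1
    ext u
    rw [Finset.mem_filter, Finset.mem_filter]
    simp only [Finset.mem_univ, true_and]
    rw [bip_adj]
    omega
  · refine Eq.trans ?_ (card_lt ha)
    congr 1
    ext u
    rw [Finset.mem_filter, Finset.mem_filter]
    simp only [Finset.mem_univ, true_and]
    rw [bip_adj]
    omega

theorem bip_inDeg {n a : ℕ} (ha : a ≤ n) (v : Fin n) :
    (bip n a).inDeg v = if v.val < a then n - a else a := by
  classical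
  rw [inDeg_eq]
  split_ifs with h
  · refine Eq.trans ?_ (card_ge ha)
    congr 1
    ext u
    rw [Finset.mem_filter, Finset.mem_filter]
    simp only [Finset.mem_univ, true_and]
    rw [bip_adj]
    omega
  · refine Eq.trans ?_ (card_lt ha)
    congr 1
    ext u
    rw [Finset.mem_filter, Finset.mem_filter]
    simp only [Finset.mem_univ, true_and]
    rw [bip_adj]
    omega

/-- the pairs inside the large part -/
def inside (n a : ℕ) : Finset (Fin n × Fin n) :=
  (pairs n).filter (fun e => a ≤ e.1.val ∧ a ≤ e.2.val)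

theorem bip_ham {n a : ℕ} (hn : n ≠ 0) (ha : a ≤ n) {E : Finset (Fin n × Fin n)}
    (hE : E ⊆ pairs n) (h : IsHamiltonian ((bip n a).union E)) :
    n ≤ 2 * a + (E ∩ inside n a).card := by
  classical
  have : NeZero n := ⟨hn⟩
  obtain ⟨f, hf⟩ := h
  let Z : Finset (ZMod n) := Finset.univ.filter (fun z => a ≤ (f z).val)
  have hZ : Z.card = n - a := by
    rw [← card_ge ha]
    apply Finset.card_bij (fun z _ => f z)
    · intro z hz
      simp only [Z, Finset.mem_filter, Finset.mem_univ, true_and] at hz ⊢
      exact hz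
    · intro z _ z' _ h; exact f.injective h
    · intro v hv
      simp only [Finset.mem_filter, Finset.mem_univ, true_and] at hv
      exact ⟨f.symm v, by simp [Z, hv], by simp⟩
  let Z₁ : Finset (ZMod n) := Z.filter (fun z => (f (z + 1)).val < a)
  let Z₂ : Finset (ZMod n) := Z.filter (fun z => ¬ (f (z + 1)).val < a)
  have h12 : Z₁.card + Z₂.card = Z.card :=
    Finset.card_filter_add_card_filter_not (s := Z) (fun z => (f (z + 1)).val < a)
  have h1 : Z₁.card ≤ a := by
    rw [← card_lt ha]
    apply Finset.card_le_card_of_injOn (fun z => f (z + 1))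
    · intro z hz
      simp only [Z₁, Finset.coe_filter, Set.mem_ofPred_eq, Finset.mem_univ, true_and] at hz ⊢
      exact hz.2
    · intro z _ z' _ h
      have := f.injective h
      exact add_right_cancel this
  have h2 : Z₂.card ≤ (E ∩ inside n a).card := by
    apply Finset.card_le_card_of_injOn (fun z => (f z, f (z + 1)))
    · intro z hz
      simp only [Z₂, Z, Finset.coe_filter, Set.mem_ofPred_eq, Finset.mem_univ, true_and,
        Finset.mem_filter] at hz
      have hz' := hf z
      have hmem : (f z, f (z+1)) ∈ E := by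
        rcases hz' with hz' | hz'
        · exfalso
          simp only [bip] at hz'
          omega
        · exact hz'
      rw [Finset.mem_coe, Finset.mem_inter, inside, Finset.mem_filter]
      refine ⟨hmem, hE hmem, hz.1, ?_⟩
      simp only
      omega
    · intro z _ z' _ h
      simp only [Prod.mk.injEq] at h
      exact f.injective h.1
  omega

theorem bip_prob {n a : ℕ} (hn : n ≠ 0) (ha : a ≤ n) {p : ℝ} (h0 : 0 ≤ p) (h1 : p ≤ 1) :
    ((n : ℝ) - 2 * a) * prob n p (fun E => IsHamiltonian ((bip n a).union E)) ≤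
      p * (n : ℝ) ^ 2 := by
  classical
  rw [prob_eq_Ex, ← Ex_smul]
  have hle : Ex (pairs n) p (fun E => ((n : ℝ) - 2 * a) *
      (if IsHamiltonian ((bip n a).union E) then 1 else 0)) ≤
      Ex (pairs n) p (fun E => ((E ∩ inside n a).card : ℝ)) := by
    apply Ex_mono h0 h1
    intro E hE
    by_cases hH : IsHamiltonian ((bip n a).union E)
    · simp only [hH, if_true, mul_one]
      have := bip_ham hn ha hE hH
      have h3 : (n : ℝ) ≤ 2 * a + (E ∩ inside n a).card := by exact_mod_cast this
      linarith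
    · simp only [hH, if_false, mul_zero]
      positivity
  refine hle.trans ?_
  rw [Ex_card (T := inside n a) (Finset.filter_subset _ _)]
  apply mul_le_mul_of_nonneg_left _ h0
  have h4 : (inside n a).card ≤ n ^ 2 := by
    calc (inside n a).card ≤ (Finset.univ : Finset (Fin n × Fin n)).card :=
          Finset.card_le_card (Finset.subset_univ _)
      _ = n ^ 2 := by rw [Finset.card_univ, Fintype.card_prod, Fintype.card_fin]; ring
  exact_mod_cast h4

theorem conditionII_of (η : ℕ → ℝ) (hη : ∀ n, 1 / 2 ≤ η n)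
    (hη' : η =o[atTop] (fun n : ℕ => (n : ℝ))) (hev : ∀ᶠ n : ℕ in atTop, Even n → 1 ≤ η n) :
    ConditionII (fun n => (n : ℝ) / 2 - η n) (fun n => η n / (n : ℝ) ^ 2) := by
  intro p hp hpo
  have hale : ∀ n : ℕ, ⌈(n : ℝ) / 2 - η n⌉₊ ≤ n := by
    intro n
    rw [Nat.ceil_le]
    have := hη n
    have : (0 : ℝ) ≤ n := by positivity
    linarith
  refine ⟨fun n => bip n ⌈(n : ℝ) / 2 - η n⌉₊, ?_, ?_⟩
  · intro n v
    have hηn := hη n
    set a := ⌈(n : ℝ) / 2 - η n⌉₊ with ha
    have h1 : (n : ℝ) / 2 - η n ≤ a := Nat.le_ceil _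
    have h2 : (a : ℝ) ≤ n / 2 + η n := by
      rcases le_or_gt 0 ((n : ℝ) / 2 - η n) with h | h
      · have := (Nat.ceil_lt_add_one h).le
        rw [← ha] at this
        linarith
      · have : a = 0 := Nat.ceil_eq_zero.mpr h.le
        rw [this]; push_cast; positivity
    have h3 : (((n - a : ℕ) : ℝ)) = n - a := by
      rw [Nat.cast_sub (hale n)]
    rw [bip_outDeg (hale n), bip_inDeg (hale n)]
    constructor
    · split_ifs
      · rw [← ha, h3]; linarith
      · exact h1
    · split_ifs
      · rw [← ha, h3]; linarith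
      · exact h1
  · rw [tendsto_order]
    refine ⟨?_, ?_⟩
    swap
    · intro b hb
      filter_upwards with n
      exact lt_of_le_of_lt (prob_le_one (hp n).1 (hp n).2 _) hb
    intro b hb
    set ε := (1 - b) / 4 with hε
    have hεpos : 0 < ε := by rw [hε]; linarith
    have e1 : ∀ᶠ n : ℕ in atTop, p n ≤ ε * (η n / (n : ℝ) ^ 2) := by
      have := hpo.bound hεpos
      filter_upwards [this] with n hn
      rw [Real.norm_eq_abs, Real.norm_eq_abs, abs_of_nonneg (hp n).1,
        abs_of_nonneg (by have := hη n; positivity)] at hn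
      exact hn
    have e2 : ∀ᶠ n : ℕ in atTop, η n ≤ (1/2) * (n : ℝ) := by
      have := hη'.bound (show (0 : ℝ) < 1/2 by norm_num)
      filter_upwards [this] with n hn
      rw [Real.norm_eq_abs, Real.norm_eq_abs, abs_of_nonneg (by linarith [hη n]),
        abs_of_nonneg (by positivity)] at hn
      exact hn
    filter_upwards [e1, e2, hev, eventually_ge_atTop 1] with n h1 h2 h3 h4
    have hηn := hη n
    have hn0 : (0 : ℝ) < n := by exact_mod_cast h4
    have hB := bip_prob (n := n) (by omega) (hale n) (hp n).1 (hp n).2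
    set a := ⌈(n : ℝ) / 2 - η n⌉₊ with ha
    have ha1 : (a : ℝ) < n / 2 - η n + 1 := by
      have := Nat.ceil_lt_add_one (show (0 : ℝ) ≤ (n : ℝ) / 2 - η n by linarith)
      rw [← ha] at this
      exact this
    -- `n - 2a ≥ 1`
    have hk1 : 2 * a + 1 ≤ n := by
      have h5 : (2 * a : ℝ) < n - 2 * η n + 2 := by linarith
      rcases Nat.even_or_odd n with he | ho
      · have := h3 he
        have h6 : (2 * a : ℝ) < n := by linarith
        have h7 : 2 * a < n := by exact_mod_cast h6
        omega
      · have h6 : (2 * a : ℝ) < n + 1 := by linarith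
        have h7 : 2 * a < n + 1 := by exact_mod_cast h6
        obtain ⟨m, hm⟩ := ho
        omega
    have hk2 : η n / 2 ≤ (n : ℝ) - 2 * a := by
      have h6 : (2 * a + 1 : ℝ) ≤ n := by exact_mod_cast hk1
      rcases le_or_gt (η n) 2 with h | h
      · linarith
      · linarith
    have hPnn := prob_nonneg (hp n).1 (hp n).2 (fun E => IsHamiltonian ((bip n a).union E))
    have h7 : η n / 2 * prob n (p n) (fun E => IsHamiltonian ((bip n a).union E)) ≤
        ε * η n := by
      calc η n / 2 * prob n (p n) (fun E => IsHamiltonian ((bip n a).union E))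
          ≤ ((n : ℝ) - 2 * a) * prob n (p n) (fun E => IsHamiltonian ((bip n a).union E)) :=
            mul_le_mul_of_nonneg_right hk2 hPnn
        _ ≤ p n * (n : ℝ) ^ 2 := hB
        _ ≤ (ε * (η n / (n : ℝ) ^ 2)) * (n : ℝ) ^ 2 :=
            mul_le_mul_of_nonneg_right h1 (by positivity)
        _ = ε * η n := by field_simp
    have h8 : prob n (p n) (fun E => IsHamiltonian ((bip n a).union E)) ≤ 2 * ε := by
      have hηpos : 0 < η n := by linarith
      by_contra hcon
      push Not at hcon
      have : ε * η n < η n / 2 * prob n (p n) (fun E => IsHamiltonian ((bip n a).union E)) := by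
        nlinarith
      linarith
    rw [prob_not]
    rw [hε] at h8
    linarith

/-! ### The rounding exception -/

theorem of_conditionII (η : ℕ → ℝ) (h : ConditionII (fun n => (n : ℝ) / 2 - η n)
    (fun n => η n / (n : ℝ) ^ 2)) : ∀ᶠ n : ℕ in atTop, Even n → 1 ≤ η n := by
  classical
  obtain ⟨D, hD, hT⟩ := h (fun _ => 0) (fun n => ⟨le_rfl, zero_le_one⟩)
    (Asymptotics.isLittleO_zero _ _)
  rw [tendsto_order] at hT
  have h1 := hT.1 (1/2) (by norm_num)
  filter_upwards [h1, eventually_ge_atTop 2] with n hn hn2 he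
  by_contra hlt
  push Not at hlt
  have hHC : HC (Finset.univ : Finset (Fin n)) (D n).Adj := by
    apply ghouila_houri (D n).loopless (by rw [Fintype.card_fin]; exact hn2)
    · intro v
      rw [← outDeg_eq, Fintype.card_fin]
      have h2 := (hD n v).1
      have h3 : (n : ℝ) < 2 * ((D n).outDeg v : ℝ) + 2 := by linarith
      have h4 : n < 2 * (D n).outDeg v + 2 := by exact_mod_cast h3
      obtain ⟨m, hm⟩ := he
      omega
    · intro v
      rw [← inDeg_eq, Fintype.card_fin]
      have h2 := (hD n v).2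
      have h3 : (n : ℝ) < 2 * ((D n).inDeg v : ℝ) + 2 := by linarith
      have h4 : n < 2 * (D n).inDeg v + 2 := by exact_mod_cast h3
      obtain ⟨m, hm⟩ := he
      omega
  have hzero : prob n 0 (fun E => ¬ IsHamiltonian ((D n).union E)) = 0 := by
    apply prob_eq_zero
    intro E hE
    apply hE
    apply isHamiltonian_of_HC
    exact hHC.mono (fun a b hab => Or.inl hab)
  rw [hzero] at hn
  norm_num at hn

/-- **Main theorem.** Let `1/2 ≤ η(n)` and `η = o(n)`, `d = n/2 - η` and `p̂ = η/n²`. Condition (i)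
of a `d`-threshold for Hamiltonicity of randomly perturbed digraphs always holds, and `p̂` is a
`d`-threshold if and only if `η(n) ≥ 1` for all but finitely many even `n`. (For even `n` and
`η(n) < 1` the condition `δ⁰ ≥ n/2 - η(n)` just says `δ⁰ ≥ n/2`; if `d` is an integer then
`η(n) ≥ 1` for every even `n`.) -/
theorem result (η : ℕ → ℝ) (hη : ∀ n, 1 / 2 ≤ η n)
    (hη' : η =o[atTop] (fun n : ℕ => (n : ℝ))) :
    ConditionI (fun n => (n : ℝ) / 2 - η n) (fun n => η n / (n : ℝ) ^ 2) ∧
    (IsThreshold (fun n => (n : ℝ) / 2 - η n) (fun n => η n / (n : ℝ) ^ 2) ↔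
      ∀ᶠ n : ℕ in atTop, Even n → 1 ≤ η n) :=
  ⟨conditionI η hη hη', fun h => of_conditionII η h.2,
    fun h => ⟨conditionI η hη hη', conditionII_of η hη hη' h⟩⟩

end Pool.Agent.Results.MP_ee1662_pr.Threshold
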